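import Pool.Agent.Y114.OP.Stm3
import Pool.Agent.Y678.OP.Rel

/-! Multiplicative relations between Weil numbers with linear side conditions (job 8740),
adapted from `Pool/Agent/Y678/OP/Rel.lean`. -/

set_option autoImplicit false

namespace Pool.Agent.Y448.OP

open Module Polynomial NumberField IsDedekindDomain Pool.Agent.Y114.OP Pool.Agent.Y678.OP

/-- bounded multiplicative relations with linear side conditions -/
theorem rel2 : S_REL2 := by
  classical
  intro ι _ n w c N κ _ A j₀
  -- bounds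
  set S : ℕ := ∑ i, n i with hS
  set D : ℕ := S ^ N with hD
  set W : ℕ := ∑ i, (w i).natAbs with hW
  set C : ℕ := (W + c) * D with hC
  set T : Finset (Fin N → ℤ) := Fintype.piFinset (fun _ : Fin N => Finset.Icc (-(C : ℤ)) C)
    with hT
  obtain ⟨B, hB⟩ := exists_bound N (T ∪ Finset.univ.image A)
  refine ⟨B, (2 * D).factorial, Nat.factorial_pos _, ?_⟩
  intro p hp P hP hroot z hz
  choose k hk using hz
  have hk2 : ∀ j, aeval (z j) (P (k j)) = 0 := fun j => ((mem_aroots.1 (hk j))).2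
  have hp0 : (p : ℂ) ≠ 0 := Nat.cast_ne_zero.2 hp.ne_zero
  have hpR : (0 : ℝ) < p := Nat.cast_pos.2 hp.pos
  have hz0 : ∀ j, z j ≠ 0 := by
    intro j h0
    have h1 := (hroot (k j) (z j) (hk j)).1
    rw [h0, norm_zero] at h1
    have h2 : (0 : ℝ) < (p : ℝ) ^ w (k j) := zpow_pos hpR _
    rw [← h1] at h2
    norm_num at h2
  have hint : ∀ j, IsIntegral ℚ (z j) := fun j =>
    (isAlgebraic_iff_isIntegral).1 ⟨P (k j), (hP (k j)).1, hk2 j⟩
  have hdeg : ∀ j, (minpoly ℚ (z j)).natDegree ≤ S := by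
    intro j
    have h1 : (minpoly ℚ (z j)).natDegree ≤ (P (k j)).natDegree :=
      natDegree_le_of_dvd (minpoly.dvd ℚ (z j) (hk2 j)) (hP (k j)).1
    have h2 : n (k j) ≤ S := Finset.single_le_sum (f := n) (fun _ _ => Nat.zero_le _)
      (Finset.mem_univ _)
    exact h1.trans ((hP (k j)).2.trans h2)
  -- the field
  set L : IntermediateField ℚ ℂ := IntermediateField.adjoin ℚ (Set.range z) with hL
  have hfd : FiniteDimensional ℚ L := by
    refine IntermediateField.finiteDimensional_adjoin ?_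
    rintro _ ⟨j, rfl⟩
    exact hint j
  have : NumberField L := { to_charZero := inferInstance, to_finiteDimensional := hfd }
  have hfin : finrank ℚ L ≤ D := by
    have h1 := adj_deg z hint hdeg Finset.univ
    rw [Finset.coe_univ, Set.image_univ, Finset.card_univ, Fintype.card_fin] at h1
    exact h1
  set y : Fin N → L := fun j => ⟨z j, IntermediateField.subset_adjoin ℚ _ ⟨j, rfl⟩⟩ with hy
  have hyz : ∀ j, ((y j : L) : ℂ) = z j := fun j => rfl
  have hy0 : ∀ j, y j ≠ 0 := fun j h0 => hz0 j (by rw [← hyz j, h0]; rfl)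
  have hyP : ∀ j, aeval (y j) (P (k j)) = 0 := by
    intro j
    have h1 : aeval (L.val (y j)) (P (k j)) = L.val (aeval (y j) (P (k j))) :=
      aeval_algHom_apply L.val (y j) (P (k j))
    have h2 : L.val (aeval (y j) (P (k j))) = 0 := by
      rw [← h1]
      exact hk2 j
    exact (map_eq_zero_iff L.val L.val.injective).1 h2
  have hn : ∀ j, ∀ φ : L →+* ℂ, ‖φ (y j)‖ ^ 2 = (p : ℝ) ^ w (k j) := by
    intro j φ
    refine (hroot (k j) (φ (y j)) (mem_aroots.2 ⟨(hP (k j)).1, ?_⟩)).1
    have h1 := aeval_algHom_apply φ.toRatAlgHom (y j) (P (k j))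
    rw [hyP j, map_zero] at h1
    exact h1
  have hcoe : ∀ x : L, algebraMap L ℂ x = (x : ℂ) := fun x => rfl
  have hi1 : ∀ j, IsIntegral ℤ ((p : L) ^ c * y j) := by
    intro j
    refine (isIntegral_algebraMap_iff (FaithfulSMul.algebraMap_injective L ℂ)).1 ?_
    rw [map_mul, map_pow, map_natCast, hcoe, hyz]
    exact (hroot (k j) (z j) (hk j)).2
  have hi2 : ∀ j, IsIntegral ℤ ((p : L) ^ c * ((p : L) ^ w (k j) * (y j)⁻¹)) := by
    intro j
    refine (isIntegral_algebraMap_iff (FaithfulSMul.algebraMap_injective L ℂ)).1 ?_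
    rw [map_mul, map_pow, map_mul, map_zpow₀, map_inv₀, map_natCast, hcoe, hyz]
    have h1 : (p : ℂ) ^ w (k j) * (z j)⁻¹ = starRingEnd ℂ (z j) := by
      have h2 := Complex.mul_conj' (z j)
      have h3 : ((‖z j‖ : ℂ)) ^ 2 = (p : ℂ) ^ w (k j) := by
        have h4 := (hroot (k j) (z j) (hk j)).1
        have h5 := congrArg (fun t : ℝ => (t : ℂ)) h4
        simpa using h5
      rw [h3] at h2
      rw [← h2, mul_comm (z j), mul_assoc, mul_inv_cancel₀ (hz0 j), mul_one]
    rw [h1]
    refine (hroot (k j) (starRingEnd ℂ (z j)) (mem_aroots.2 ⟨(hP (k j)).1, ?_⟩)).2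
    have h2 := aeval_algHom_apply (starRingEnd ℂ).toRatAlgHom (z j) (P (k j))
    rw [hk2 j, map_zero] at h2
    exact h2
  -- the set of the vectors of orders
  have hbox : ∀ v : HeightOneSpectrum (𝓞 L), (fun j => ov v (y j)) ∈ T := by
    intro v
    rw [hT, Fintype.mem_piFinset]
    intro j
    rw [Finset.mem_Icc, ← abs_le]
    refine (ov_bound v hp (hy0 j) (hi1 j) (hi2 j)).trans ?_
    have h1 : |w (k j)| ≤ (W : ℤ) := by
      rw [Int.abs_eq_natAbs]
      have : (w (k j)).natAbs ≤ W := Finset.single_le_sum (f := fun i => (w i).natAbs)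
        (fun _ _ => Nat.zero_le _) (Finset.mem_univ _)
      exact_mod_cast this
    have h2 : (finrank ℚ L : ℤ) ≤ D := by exact_mod_cast hfin
    rw [hC]
    push_cast
    exact mul_le_mul (add_le_add h1 le_rfl) h2 (Int.natCast_nonneg _) (by positivity)
  set X0 : Finset (Fin N → ℤ) := T.filter fun x => ∃ v : HeightOneSpectrum (𝓞 L),
    x = fun j => ov v (y j) with hX0
  set X : Finset (Fin N → ℤ) := X0 ∪ Finset.univ.image A with hX
  have hmem : ∀ e : Fin N → ℤ, e ∈ RX X ↔
      (∀ v : HeightOneSpectrum (𝓞 L), ∑ j, e j * ov v (y j) = 0) ∧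
        ∀ a, ∑ j, A a j * e j = 0 := by
    intro e
    rw [mem_RX]
    constructor
    · intro h
      refine ⟨fun v => ?_, fun a => ?_⟩
      · exact h (fun j => ov v (y j)) (Finset.mem_union_left _
          (Finset.mem_filter.2 ⟨hbox v, v, rfl⟩))
      · have h1 := h (A a) (Finset.mem_union_right _ (Finset.mem_image_of_mem _
          (Finset.mem_univ a)))
        rw [← h1]
        exact Finset.sum_congr rfl fun j _ => mul_comm _ _
    · rintro ⟨h, h'⟩ x hx
      rcases Finset.mem_union.1 hx with hx | hx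
      · obtain ⟨-, v, rfl⟩ := Finset.mem_filter.1 hx
        exact h v
      · obtain ⟨a, -, rfl⟩ := Finset.mem_image.1 hx
        rw [← h' a]
        exact Finset.sum_congr rfl fun j _ => mul_comm _ _
  obtain ⟨G, hG, hGB⟩ := hB X (Finset.union_subset_union_left (Finset.filter_subset _ _))
  have hval : ∀ e : Fin N → ℤ, ((mo y e : L) : ℂ) = ∏ j, z j ^ e j := by
    intro e
    have h1 : ((mo y e : L) : ℂ) = algebraMap L ℂ (mo y e) := rfl
    rw [h1]
    unfold mo
    rw [map_prod]
    refine Finset.prod_congr rfl fun j _ => ?_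
    rw [map_zpow₀, hcoe, hyz]
  have hinj : ∀ a b : L, (a : ℂ) = b → a = b := fun a b h => Subtype.ext h
  have hM : ∀ e ∈ RX X, (mo y e) ^ (2 * D).factorial = 1 := by
    intro e he
    exact rel_nf hfin hp (fun j => w (k j)) y hy0 hn e ((hmem e).1 he).1
  have hM' : ∀ e ∈ RX X, (∏ j, z j ^ e j) ^ (2 * D).factorial = 1 := by
    intro e he
    rw [← hval e]
    have := congrArg (fun t : L => (t : ℂ)) (hM e he)
    simpa using this
  have hroot' : ∀ (e : Fin N → ℤ) (m : ℕ), 0 < m → (∏ j, z j ^ e j) ^ m = 1 →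
      (∀ a, ∑ j, A a j * e j = 0) → e ∈ RX X := by
    intro e m hm h hA
    rw [hmem]
    refine ⟨?_, hA⟩
    intro v
    refine rel_of_root y hy0 e hm ?_ v
    apply hinj
    have h1 : (((mo y e) ^ m : L) : ℂ) = (∏ j, z j ^ e j) ^ m := by
      rw [← hval e]; simp
    exact h1.trans (h.trans (by simp))
  have hGR : ∀ g ∈ G, g ∈ RX X := fun g hg => by
    rw [← hG]
    exact Submodule.subset_span hg
  rintro ⟨e, heA, he0, he⟩
  have h1 : e ∈ RX X := hroot' e 1 one_pos (by rw [he, one_pow]) heA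
  obtain ⟨g, hg, hg0⟩ : ∃ g ∈ G, g j₀ ≠ 0 := by
    by_contra hcon
    push Not at hcon
    rw [← hG] at h1
    have h2 : Submodule.span ℤ (G : Set (Fin N → ℤ)) ≤
        LinearMap.ker (LinearMap.proj j₀ : (Fin N → ℤ) →ₗ[ℤ] ℤ) :=
      Submodule.span_le.2 fun g hg => by
        rw [SetLike.mem_coe, LinearMap.mem_ker]
        exact hcon g hg
    exact he0 (LinearMap.mem_ker.1 (h2 h1))
  exact ⟨g, ((hmem g).1 (hGR g hg)).2, hg0, fun j => hGB g hg j, hM' g (hGR g hg)⟩

end Pool.Agent.Y448.OP
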